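import Pool.Agent.H389R2.LC.Basic
import Pool.Agent.W13.LM.Scale

/-! # Dihedral relations between the digits of an expansion in a quadratic unit -/

set_option autoImplicit false

open Finset

namespace Pool.Agent.Helper553.DR

open Pool.H389R2.LC

variable {t : ℤ} {ε : ℝ}

/-- tails of the expansion -/
noncomputable def tl (ε : ℝ) (d : ℕ → ℤ) (j : ℕ) : ℝ := ∑' i : ℕ, (d (i + j) : ℝ) * ε⁻¹ ^ i

lemma half (hb : Base t ε) : ε⁻¹ ≤ 1 / 2 := by
  have h := hb.two_lt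
  have : ε⁻¹ ≤ 2⁻¹ := by
    apply inv_anti₀ (by norm_num) h.le
  linarith

lemma summ (hb : Base t ε) (d : ℕ → ℤ) (B : ℝ) (hB : ∀ k, |(d k : ℝ)| ≤ B) (j : ℕ) :
    Summable fun i : ℕ => (d (i + j) : ℝ) * ε⁻¹ ^ i := by
  refine Summable.of_norm_bounded (g := fun i => B * ε⁻¹ ^ i)
    ((summable_geometric_of_lt_one hb.rpos.le hb.rlt).mul_left B) ?_
  intro i
  rw [Real.norm_eq_abs, abs_mul, abs_of_pos (pow_pos hb.rpos i)]
  exact mul_le_mul_of_nonneg_right (hB _) (pow_pos hb.rpos i).le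

lemma tl_rec (hb : Base t ε) (d : ℕ → ℤ) (B : ℝ) (hB : ∀ k, |(d k : ℝ)| ≤ B) (j : ℕ) :
    tl ε d j = d j + ε⁻¹ * tl ε d (j + 1) := by
  unfold tl
  rw [(summ hb d B hB j).tsum_eq_zero_add, ← tsum_mul_left]
  congr 1
  · simp
  · apply tsum_congr
    intro i
    rw [show i + 1 + j = i + (j + 1) by ring, pow_succ]
    ring

lemma tl_bound (hb : Base t ε) (d : ℕ → ℤ) (B : ℝ) (hB : ∀ k, |(d k : ℝ)| ≤ B) (j : ℕ) :
    |tl ε d j| ≤ 2 * B := by
  have hB0 : 0 ≤ B := (abs_nonneg _).trans (hB 0)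
  have h1 : ‖tl ε d j‖ ≤ B * (1 - ε⁻¹)⁻¹ := by
    refine tsum_of_norm_bounded ((hasSum_geometric_of_lt_one hb.rpos.le hb.rlt).mul_left B) ?_
    intro i
    rw [Real.norm_eq_abs, abs_mul, abs_of_pos (pow_pos hb.rpos i)]
    exact mul_le_mul_of_nonneg_right (hB _) (pow_pos hb.rpos i).le
  rw [Real.norm_eq_abs] at h1
  have h2 := half hb
  have h3 : (1 - ε⁻¹)⁻¹ ≤ 2 := by
    rw [inv_le_comm₀ (by linarith) (by norm_num)]
    linarith
  calc |tl ε d j| ≤ B * (1 - ε⁻¹)⁻¹ := h1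
    _ ≤ B * 2 := mul_le_mul_of_nonneg_left h3 hB0
    _ = _ := by ring

/-- the integer parts -/
def nn (t : ℤ) (d : ℕ → ℤ) : ℕ → ℤ
  | 0 => 0
  | 1 => d 0
  | (k + 2) => t * nn t d (k + 1) - nn t d k + d (k + 1)

/-- the remainders -/
noncomputable def vv (t : ℤ) (ε : ℝ) (d : ℕ → ℤ) (k : ℕ) : ℝ :=
  (U t k : ℝ) * tl ε d 0 - nn t d k

lemma vv_rec (d : ℕ → ℤ) (k : ℕ) :
    vv t ε d (k + 2) = t * vv t ε d (k + 1) - vv t ε d k - d (k + 1) := by
  unfold vv
  rw [U_succ2, nn]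
  push_cast
  ring

lemma vv_P (hb : Base t ε) (d : ℕ → ℤ) (B : ℝ) (hB : ∀ k, |(d k : ℝ)| ≤ B) (k : ℕ) :
    vv t ε d (k + 1) - ε⁻¹ * vv t ε d k = ε⁻¹ * tl ε d (k + 1) := by
  induction k with
  | zero =>
    have h := tl_rec hb d B hB 0
    unfold vv
    rw [zero_add, U_one, U_zero, nn, nn]
    rw [zero_add] at h
    push_cast
    linarith
  | succ k ih =>
    have h := tl_rec hb d B hB (k + 1)
    have ha := hb.add
    have hm := hb.mul
    rw [vv_rec]
    have e1 : ε * (vv t ε d (k + 1) - ε⁻¹ * vv t ε d k) = tl ε d (k + 1) := by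
      rw [ih, ← mul_assoc, hm, one_mul]
    have e2 : ε * (vv t ε d (k + 1) - ε⁻¹ * vv t ε d k)
        = ε * vv t ε d (k + 1) - vv t ε d k := by
      rw [mul_sub, ← mul_assoc, hm, one_mul]
    rw [← ha]
    linear_combination e1 - e2 + h

lemma vv_R (hb : Base t ε) (d : ℕ → ℤ) (B : ℝ) (hB : ∀ k, |(d k : ℝ)| ≤ B) (k : ℕ) :
    |vv t ε d (k + 1) - ε * vv t ε d k| ≤ 4 * B := by
  have hB0 : 0 ≤ B := (abs_nonneg _).trans (hB 0)
  induction k with
  | zero =>
    unfold vv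
    rw [zero_add, U_one, U_zero, nn, nn]
    have h1 := tl_bound hb d B hB 0
    have h2 := hB 0
    have : ((1 : ℤ) : ℝ) * tl ε d 0 - ((d 0 : ℤ) : ℝ) - ε * (((0 : ℤ) : ℝ) * tl ε d 0 - ((0 : ℤ) : ℝ))
        = tl ε d 0 - d 0 := by push_cast; ring
    rw [this]
    have := abs_sub (tl ε d 0) (d 0 : ℝ)
    linarith
  | succ k ih =>
    have ha := hb.add
    have hm := hb.mul
    have hh := half hb
    rw [vv_rec]
    have e1 : t * vv t ε d (k + 1) - vv t ε d k - d (k + 1) - ε * vv t ε d (k + 1)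
        = ε⁻¹ * (vv t ε d (k + 1) - ε * vv t ε d k) - d (k + 1) := by
      rw [← ha]
      linear_combination (vv t ε d k) * hm
    rw [e1]
    have h2 := abs_sub (ε⁻¹ * (vv t ε d (k + 1) - ε * vv t ε d k)) (d (k + 1) : ℝ)
    rw [abs_mul, abs_of_pos hb.rpos] at h2
    have h3 := hB (k + 1)
    have h4 := abs_nonneg (vv t ε d (k + 1) - ε * vv t ε d k)
    nlinarith [hb.rpos]

lemma vv_bound (hb : Base t ε) (d : ℕ → ℤ) (B : ℝ) (hB : ∀ k, |(d k : ℝ)| ≤ B) (k : ℕ) :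
    |vv t ε d k| ≤ 5 * B := by
  have hB0 : 0 ≤ B := (abs_nonneg _).trans (hB 0)
  have h1 := vv_P hb d B hB k
  have h2 := vv_R hb d B hB k
  have h3 := tl_bound hb d B hB (k + 1)
  have hh := half hb
  have hd := hb.δpos
  have e : (ε - ε⁻¹) * vv t ε d k = ε⁻¹ * tl ε d (k + 1) - (vv t ε d (k + 1) - ε * vv t ε d k) := by
    linear_combination (1 : ℝ) * h1
  have h4 := abs_sub (ε⁻¹ * tl ε d (k + 1)) (vv t ε d (k + 1) - ε * vv t ε d k)
  rw [← e, abs_mul, abs_mul, abs_of_pos hb.rpos, abs_of_pos (by linarith : 0 < ε - ε⁻¹)] at h4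
  have h5 := abs_nonneg (tl ε d (k + 1))
  have h6 := abs_nonneg (vv t ε d k)
  nlinarith [hb.rpos]

/-- a bounded solution of the homogeneous recurrence is small in the middle of the window -/
lemma window (hb : Base t ε) (x : ℕ → ℝ) (V : ℝ) (hV : ∀ k, |x k| ≤ V) (l m r : ℕ)
    (hlm : l ≤ m) (hmr : m ≤ r)
    (hx : ∀ k, l ≤ k → k < r → x (k + 2) = t * x (k + 1) - x k) :
    |x m| ≤ (1 + ε) * V * (ε⁻¹ ^ (r - m) + ε⁻¹ ^ (m - l)) := by
  have hV0 : 0 ≤ V := (abs_nonneg _).trans (hV 0)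
  have ha := hb.add
  have hm := hb.mul
  have hP : ∀ i, m + i ≤ r → x (m + i + 1) - ε⁻¹ * x (m + i) = ε ^ i * (x (m + 1) - ε⁻¹ * x m) := by
    intro i
    induction i with
    | zero => intro _; simp
    | succ i ih =>
      intro hi
      have h1 := ih (by omega)
      have h2 := hx (m + i) (by omega) (by omega)
      rw [← add_assoc, h2, pow_succ]
      have e : t * x (m + i + 1) - x (m + i) - ε⁻¹ * x (m + i + 1)
          = ε * (x (m + i + 1) - ε⁻¹ * x (m + i)) := by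
        rw [← ha]
        linear_combination (x (m + i)) * hm
      rw [e, h1]
      ring
  have hR : ∀ i, l + i ≤ r → x (l + i + 1) - ε * x (l + i) = ε⁻¹ ^ i * (x (l + 1) - ε * x l) := by
    intro i
    induction i with
    | zero => intro _; simp
    | succ i ih =>
      intro hi
      have h1 := ih (by omega)
      have h2 := hx (l + i) (by omega) (by omega)
      rw [← add_assoc, h2, pow_succ]
      have e : t * x (l + i + 1) - x (l + i) - ε * x (l + i + 1)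
          = ε⁻¹ * (x (l + i + 1) - ε * x (l + i)) := by
        rw [← ha]
        linear_combination (x (l + i)) * hm
      rw [e, h1]
      ring
  have h1 := hP (r - m) (by omega)
  have h2 := hR (m - l) (by omega)
  rw [show m + (r - m) = r by omega] at h1
  rw [show l + (m - l) = m by omega] at h2
  have hrp := hb.rpos
  have hp := hb.pos
  have hh := half hb
  have b1 : |x (m + 1) - ε⁻¹ * x m| ≤ ε⁻¹ ^ (r - m) * ((1 + ε) * V) := by
    have e : x (m + 1) - ε⁻¹ * x m = ε⁻¹ ^ (r - m) * (x (r + 1) - ε⁻¹ * x r) := by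
      rw [h1, ← mul_assoc, ← mul_pow, inv_mul_cancel₀ hb.ne, one_pow, one_mul]
    rw [e, abs_mul, abs_of_pos (pow_pos hrp _)]
    refine mul_le_mul_of_nonneg_left ?_ (pow_pos hrp _).le
    have h3 := abs_sub (x (r + 1)) (ε⁻¹ * x r)
    rw [abs_mul, abs_of_pos hrp] at h3
    have h4 := hV (r + 1)
    have h5 := hV r
    have h6 := abs_nonneg (x r)
    nlinarith [hb.two_lt]
  have b2 : |x (m + 1) - ε * x m| ≤ ε⁻¹ ^ (m - l) * ((1 + ε) * V) := by
    rw [h2, abs_mul, abs_of_pos (pow_pos hrp _)]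
    refine mul_le_mul_of_nonneg_left ?_ (pow_pos hrp _).le
    have h3 := abs_sub (x (l + 1)) (ε * x l)
    rw [abs_mul, abs_of_pos hp] at h3
    have h4 := hV (l + 1)
    have h5 := hV l
    nlinarith
  have e : (ε - ε⁻¹) * x m = (x (m + 1) - ε⁻¹ * x m) - (x (m + 1) - ε * x m) := by ring
  have h4 := abs_sub (x (m + 1) - ε⁻¹ * x m) (x (m + 1) - ε * x m)
  have hd := hb.δpos
  rw [← e, abs_mul, abs_of_pos (by linarith : 0 < ε - ε⁻¹)] at h4
  have h6 := abs_nonneg (x m)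
  nlinarith

end Pool.Agent.Helper553.DR
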