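import Pool.Agent.Helper553_DR.Main

/-! # Multiplication by elements of the quadratic field, final form -/

set_option autoImplicit false

open Finset

namespace Pool.Agent.Helper553.DR

open Pool.H389R2.LC
open Pool.Agent.W13.LM (LC lc_of_inf dist_scale)

variable {t : ℤ} {ε : ℝ}

/-- the digits of `(X + Y ε) β` -/
def fl (X Y : ℤ) (d : ℕ → ℤ) (k : ℕ) : ℤ := X * d k + Y * d (k + 1)

lemma log_mul_le (a b : ℕ) : Nat.log 2 (a * b) ≤ Nat.log 2 a + Nat.log 2 b + 1 := by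
  rcases Nat.eq_zero_or_pos (a * b) with h0 | h0
  · rw [h0]; simp
  · have h1 : a < 2 ^ (Nat.log 2 a + 1) := Nat.lt_pow_succ_log_self (by norm_num) a
    have h2 : b < 2 ^ (Nat.log 2 b + 1) := Nat.lt_pow_succ_log_self (by norm_num) b
    have h3 : a * b < 2 ^ (Nat.log 2 a + Nat.log 2 b + 1 + 1) := by
      calc a * b < 2 ^ (Nat.log 2 a + 1) * 2 ^ (Nat.log 2 b + 1) := Nat.mul_lt_mul'' h1 h2
        _ = 2 ^ (Nat.log 2 a + Nat.log 2 b + 1 + 1) := by rw [← pow_add]; congr 1; ring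
    have h4 := Nat.log_lt_of_lt_pow h0.ne' h3
    omega

lemma lin_ne (hb : Base t ε) (X Y : ℤ) (h : X ≠ 0 ∨ Y ≠ 0) : (X : ℝ) + Y * ε ≠ 0 := by
  intro h0
  have hY : Y = 0 := by
    by_contra hY
    apply irr hb
    have hY' : (Y : ℝ) ≠ 0 := by exact_mod_cast hY
    refine ⟨-X / Y, ?_⟩
    push_cast
    field_simp
    linarith
  rw [hY] at h0
  push_cast at h0
  have hX : X = 0 := by
    have : (X : ℝ) = 0 := by linarith
    exact_mod_cast this
  rcases h with h | h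
  · exact h hX
  · exact h hY

lemma rel_fl (hb : Base t ε) (κ : ℝ) (hκ : 0 ≤ κ) (d : ℕ → ℤ) (X Y : ℤ)
    (h : ∀ K, Rel ε κ d K) (K' : ℕ) : Rel ε κ (fl X Y d) K' := by
  by_cases hXY : X = 0 ∧ Y = 0
  · obtain ⟨rfl, rfl⟩ := hXY
    obtain ⟨ι, _, c, e, p, s, g, L, hp, hs, hL, hne, hrel⟩ := h K'
    exact ⟨ι, _, c, e, p, s, g, L, hp, hs, hL, hne, by intro k _ _; simp [fl]⟩
  have hXY' : X ≠ 0 ∨ Y ≠ 0 := by
    by_contra hcon
    push Not at hcon
    exact hXY hcon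
  set lam : ℕ := Nat.log 2 (X.natAbs + Y.natAbs) with hlam
  obtain ⟨ι, _, c, e, p, s, g, L, hp, hs, hL, hne, hrel⟩ := h (4 + K' * (2 + lam))
  set M : ℕ := ∑ i, ((c i).natAbs + (e i).natAbs) with hM
  have hL4 : 2 * g + 4 ≤ L := by
    have h1 : ((2 * g + 4 : ℕ) : ℝ) ≤ L := by
      refine le_trans ?_ hL
      push_cast
      have h2 : 0 ≤ κ * s := by positivity
      have h3 : (0 : ℝ) ≤ (Nat.log 2 M : ℝ) := Nat.cast_nonneg _
      have h4 : (0 : ℝ) ≤ (K' : ℝ) * (2 + lam) := by positivity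
      nlinarith
    exact_mod_cast h1
  have hM' : ∑ i : ι ⊕ ι, ((Sum.elim (fun i => Y * c i) (fun i => X * c i) i).natAbs
      + (Sum.elim (fun i => X * e i) (fun i => Y * e i) i).natAbs) = (X.natAbs + Y.natAbs) * M := by
    rw [Fintype.sum_sum_type, hM, mul_sum, ← sum_add_distrib]
    refine sum_congr rfl fun i _ => ?_
    simp only [Sum.elim_inl, Sum.elim_inr, Int.natAbs_mul]
    ring
  refine ⟨ι ⊕ ι, inferInstance, Sum.elim (fun i => Y * c i) (fun i => X * c i),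
    Sum.elim (fun i => X * e i) (fun i => Y * e i), Sum.elim p (fun i => p i + 1),
    s - 1, g + 1, L - 2, ?_, by omega, ?_, ?_, ?_⟩
  · rintro (i | i)
    · have := hp i
      simp only [Sum.elim_inl]
      omega
    · have := hp i
      simp only [Sum.elim_inr]
      omega
  · rw [hM']
    have h1 := log_mul_le (X.natAbs + Y.natAbs) M
    have h2 : (Nat.log 2 ((X.natAbs + Y.natAbs) * M) : ℝ) ≤ lam + Nat.log 2 M + 1 := by
      exact_mod_cast h1
    have h3 : ((s - 1 : ℕ) : ℝ) ≤ s := by exact_mod_cast Nat.sub_le s 1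
    have h4 : ((L - 2 : ℕ) : ℝ) = L - 2 := by
      rw [Nat.cast_sub (by omega)]; norm_num
    rw [h4]
    push_cast at hL ⊢
    have h5 : κ * ((s - 1 : ℕ) : ℝ) ≤ κ * s := by gcongr
    have h6 : (K' : ℝ) * (1 + (Nat.log 2 ((X.natAbs + Y.natAbs) * M) : ℝ))
        ≤ K' * (1 + (lam + Nat.log 2 M + 1)) := by gcongr
    have h7 : (0 : ℝ) ≤ (Nat.log 2 M : ℝ) := Nat.cast_nonneg _
    have h8 : (0 : ℝ) ≤ (lam : ℝ) := Nat.cast_nonneg _
    have h9 : (0 : ℝ) ≤ (K' : ℝ) := Nat.cast_nonneg _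
    have h10 : (K' : ℝ) * (1 + (lam + Nat.log 2 M + 1)) + 4
        ≤ (4 + K' * (2 + lam)) * (1 + Nat.log 2 M) := by
      have h11 : (0 : ℝ) ≤ K' * lam * Nat.log 2 M := by positivity
      have h12 : (0 : ℝ) ≤ K' * Nat.log 2 M := by positivity
      nlinarith
    linarith
  · have e1 : ∑ i : ι ⊕ ι, ((Sum.elim (fun i => Y * c i) (fun i => X * c i) i : ℤ) : ℝ)
        * ε ^ (Sum.elim p (fun i => p i + 1) i) = ((Y : ℝ) + X * ε) * ∑ i, (c i : ℝ) * ε ^ p i := by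
      rw [Fintype.sum_sum_type, mul_sum, ← sum_add_distrib]
      refine sum_congr rfl fun i _ => ?_
      simp only [Sum.elim_inl, Sum.elim_inr]
      push_cast
      ring
    have e2 : ∑ i : ι ⊕ ι, ((Sum.elim (fun i => X * e i) (fun i => Y * e i) i : ℤ) : ℝ)
        * ε ^ (Sum.elim p (fun i => p i + 1) i) = ((X : ℝ) + Y * ε) * ∑ i, (e i : ℝ) * ε ^ p i := by
      rw [Fintype.sum_sum_type, mul_sum, ← sum_add_distrib]
      refine sum_congr rfl fun i _ => ?_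
      simp only [Sum.elim_inl, Sum.elim_inr]
      push_cast
      ring
    rw [e1, e2]
    rcases hne with h1 | h1
    · exact Or.inl (mul_ne_zero (lin_ne hb Y X hXY'.symm) h1)
    · exact Or.inr (mul_ne_zero (lin_ne hb X Y hXY') h1)
  · intro k hk1 hk2
    have r0 := hrel k (by omega) (by omega)
    have r1 := hrel (k + 1) (by omega) (by omega)
    have r2 := hrel (k + 2) (by omega) (by omega)
    have e1 : ∑ i : ι ⊕ ι, Sum.elim (fun i => Y * c i) (fun i => X * c i) i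
        * fl X Y d (k + Sum.elim p (fun i => p i + 1) i)
        = X * Y * ∑ i, c i * d (k + p i) + (X ^ 2 + Y ^ 2) * ∑ i, c i * d (k + 1 + p i)
          + X * Y * ∑ i, c i * d (k + 2 + p i) := by
      rw [Fintype.sum_sum_type, mul_sum, mul_sum, mul_sum, ← sum_add_distrib, ← sum_add_distrib,
        ← sum_add_distrib]
      refine sum_congr rfl fun i _ => ?_
      simp only [Sum.elim_inl, Sum.elim_inr, fl]
      rw [show k + (p i + 1) = k + p i + 1 by ring, show k + 1 + p i = k + p i + 1 by ring,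
        show k + 2 + p i = k + p i + 1 + 1 by ring]
      ring
    have e2 : ∑ i : ι ⊕ ι, Sum.elim (fun i => X * e i) (fun i => Y * e i) i
        * fl X Y d (s - 1 - k - Sum.elim p (fun i => p i + 1) i)
        = X * Y * ∑ i, e i * d (s - k - p i) + (X ^ 2 + Y ^ 2) * ∑ i, e i * d (s - (k + 1) - p i)
          + X * Y * ∑ i, e i * d (s - (k + 2) - p i) := by
      rw [Fintype.sum_sum_type, mul_sum, mul_sum, mul_sum, ← sum_add_distrib, ← sum_add_distrib,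
        ← sum_add_distrib]
      refine sum_congr rfl fun i _ => ?_
      simp only [Sum.elim_inl, Sum.elim_inr, fl]
      have hpi := hp i
      rw [show s - 1 - k - (p i + 1) + 1 = s - 1 - k - p i by omega,
        show s - 1 - k - p i + 1 = s - k - p i by omega,
        show s - 1 - k - (p i + 1) = s - (k + 2) - p i by omega,
        show s - 1 - k - p i = s - (k + 1) - p i by omega]
      ring
    rw [e1, e2, r0, r1, r2]

lemma tl_fl (hb : Base t ε) (d : ℕ → ℤ) (B : ℝ) (hB : ∀ k, |(d k : ℝ)| ≤ B) (X Y : ℤ) :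
    tl ε (fl X Y d) 0 = X * tl ε d 0 + Y * (ε * (tl ε d 0 - d 0)) := by
  have h1 : tl ε (fl X Y d) 0 = X * tl ε d 0 + Y * tl ε d 1 := by
    unfold tl
    rw [← tsum_mul_left, ← tsum_mul_left,
      ← ((summ hb d B hB 0).mul_left (X : ℝ)).tsum_add ((summ hb d B hB 1).mul_left (Y : ℝ))]
    apply tsum_congr
    intro i
    simp only [fl, add_zero]
    push_cast
    ring
  have h2 := tl_rec hb d B hB 0
  rw [zero_add] at h2
  have h3 : tl ε d 1 = ε * (tl ε d 0 - d 0) := by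
    rw [h2]
    calc tl ε d 1 = (ε * ε⁻¹) * tl ε d 1 := by rw [hb.mul, one_mul]
      _ = _ := by ring
  rw [h1, h3]

lemma fl_bound (d : ℕ → ℤ) (B : ℝ) (hB : ∀ k, |(d k : ℝ)| ≤ B) (X Y : ℤ) (k : ℕ) :
    |((fl X Y d k : ℤ) : ℝ)| ≤ |(X : ℝ)| * B + |(Y : ℝ)| * B := by
  unfold fl
  push_cast
  refine (abs_add_le _ _).trans ?_
  rw [abs_mul, abs_mul]
  have h1 := hB k
  have h2 := hB (k + 1)
  gcongr

lemma clr (r : ℚ) (N : ℕ) (h : r.den ∣ N) : ∃ A : ℤ, (N : ℝ) * (r : ℝ) = A := by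
  obtain ⟨k, rfl⟩ := h
  refine ⟨r.num * k, ?_⟩
  have h1 : ((r * r.den : ℚ) : ℝ) = ((r.num : ℚ) : ℝ) := by rw [Rat.mul_den_eq_num]
  push_cast at h1 ⊢
  linear_combination (k : ℝ) * h1

/-- the approximations for the general pair -/
theorem raw2 (hb : Base t ε) (κ : ℝ) (hκ : 0 ≤ κ) (d : ℕ → ℤ) (B : ℝ) (hB : ∀ k, |(d k : ℝ)| ≤ B)
    (h : ∀ K, Rel ε κ d K) (a b x y z w : ℚ) :
    ∃ (N : ℕ) (C : ℝ), 0 < N ∧ 0 ≤ C ∧ ∀ K : ℕ, ∃ (q s r : ℕ) (Y : ℝ), 0 < q ∧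
      (q : ℝ) ≤ N * ε ^ (2 * s) ∧ κ * s ≤ r ∧ 0 ≤ Y ∧
      (q : ℝ) * |(q : ℝ) * (a + b * ε) - round ((q : ℝ) * (a + b * ε))|
        * |(q : ℝ) * ((x + y * ε) * tl ε d 0 + (z + w * ε))
          - round ((q : ℝ) * ((x + y * ε) * tl ε d 0 + (z + w * ε)))|
        ≤ C * (1 / 2) ^ K * ε⁻¹ ^ r := by
  obtain ⟨N, hN, d1, d2, d3, d4, d5, d6⟩ : ∃ N : ℕ, 0 < N ∧ a.den ∣ N ∧ b.den ∣ N ∧ x.den ∣ N ∧
      y.den ∣ N ∧ z.den ∣ N ∧ w.den ∣ N := by
    refine ⟨a.den * b.den * x.den * y.den * z.den * w.den, ?_, ⟨b.den * x.den * y.den * z.den * w.den,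
      by ring⟩, ⟨a.den * x.den * y.den * z.den * w.den, by ring⟩,
      ⟨a.den * b.den * y.den * z.den * w.den, by ring⟩,
      ⟨a.den * b.den * x.den * z.den * w.den, by ring⟩,
      ⟨a.den * b.den * x.den * y.den * w.den, by ring⟩,
      ⟨a.den * b.den * x.den * y.den * z.den, by ring⟩⟩
    have := a.den_pos
    have := b.den_pos
    have := x.den_pos
    have := y.den_pos
    have := z.den_pos
    have := w.den_pos
    positivity
  obtain ⟨A0, hA0⟩ := clr a N d1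
  obtain ⟨B0, hB0⟩ := clr b N d2
  obtain ⟨X, hX⟩ := clr x N d3
  obtain ⟨Y, hY⟩ := clr y N d4
  obtain ⟨Z, hZ⟩ := clr z N d5
  obtain ⟨W, hW⟩ := clr w N d6
  have hε := hb.pos
  have hB00 : 0 ≤ B := (abs_nonneg _).trans (hB 0)
  set B' : ℝ := |(X : ℝ)| * B + |(Y : ℝ)| * B with hB'
  set W' : ℤ := W + Y * d 0 with hW'
  refine ⟨N, N * |(B0 : ℝ)| * ((10 * B' * (1 + ε) + |(W' : ℝ)|) * ε ^ 4), hN, by positivity,
    fun K => ?_⟩
  obtain ⟨q, s, r, I1, I2, x1, y1, v1, hq, h1, h2, h3, h4, h5, h6⟩ :=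
    raw hb κ hκ (fl X Y d) B' (fl_bound d B hB X Y) Z W' K (rel_fl hb κ hκ d X Y h (K + 3))
  have hy1 : 0 ≤ y1 := (abs_nonneg _).trans h2
  have hv1 : 0 ≤ v1 := (abs_nonneg _).trans h3
  have hq0 : (0 : ℝ) ≤ q := Nat.cast_nonneg _
  have hN0 : (0 : ℝ) ≤ N := Nat.cast_nonneg _
  refine ⟨N * q, s, r, 0, Nat.mul_pos hN hq, ?_, h5, le_refl _, ?_⟩
  · push_cast
    exact mul_le_mul_of_nonneg_left (h1.trans h6) hN0
  · have f1 : |((N * q : ℕ) : ℝ) * (a + b * ε) - round (((N * q : ℕ) : ℝ) * (a + b * ε))|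
        ≤ |(B0 : ℝ)| * y1 := by
      refine (round_le _ (q * A0 + B0 * I1)).trans ?_
      have : ((N * q : ℕ) : ℝ) * (a + b * ε) - ((q * A0 + B0 * I1 : ℤ) : ℝ)
          = B0 * ((q : ℝ) * ε - I1) := by
        push_cast
        linear_combination (q : ℝ) * hA0 + (q : ℝ) * ε * hB0
      rw [this, abs_mul]
      gcongr
    have f2 : |((N * q : ℕ) : ℝ) * ((x + y * ε) * tl ε d 0 + (z + w * ε))
        - round (((N * q : ℕ) : ℝ) * ((x + y * ε) * tl ε d 0 + (z + w * ε)))| ≤ v1 := by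
      refine (round_le _ I2).trans ?_
      have : ((N * q : ℕ) : ℝ) * ((x + y * ε) * tl ε d 0 + (z + w * ε))
          = (q : ℝ) * (tl ε (fl X Y d) 0 + Z + W' * ε) := by
        rw [tl_fl hb d B hB X Y, hW']
        push_cast
        linear_combination (q : ℝ) * tl ε d 0 * hX + (q : ℝ) * ε * tl ε d 0 * hY
          + (q : ℝ) * hZ + (q : ℝ) * ε * hW
      rw [this]
      exact h3
    have f3 : ((N * q : ℕ) : ℝ) ≤ N * x1 := by
      push_cast
      exact mul_le_mul_of_nonneg_left h1 hN0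
    have hx1 : 0 ≤ x1 := hq0.trans h1
    calc ((N * q : ℕ) : ℝ) * |((N * q : ℕ) : ℝ) * (a + b * ε) - round (((N * q : ℕ) : ℝ) * (a + b * ε))|
          * |((N * q : ℕ) : ℝ) * ((x + y * ε) * tl ε d 0 + (z + w * ε))
            - round (((N * q : ℕ) : ℝ) * ((x + y * ε) * tl ε d 0 + (z + w * ε)))|
        ≤ (N * x1) * (|(B0 : ℝ)| * y1) * v1 := by gcongr
      _ = N * |(B0 : ℝ)| * (x1 * y1 * v1) := by ring
      _ ≤ N * |(B0 : ℝ)| * ((10 * B' * (1 + ε) + |(W' : ℝ)|) * ε ^ 4 * (1 / 2) ^ K * ε⁻¹ ^ r) := by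
          gcongr
      _ = _ := by ring

end Pool.Agent.Helper553.DR
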