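import Pool.Agent.Helper553_DR.Filter

/-! # Littlewood's conjecture and power savings -/

set_option autoImplicit false

open Finset

namespace Pool.Agent.Helper553.DR

open Pool.H389R2.LC
open Pool.Agent.W13.LM (LC lc_of_inf dist_scale)

variable {t : ℤ} {ε : ℝ}

/-- `q ^ (1 + η) ‖q α‖ ‖q β‖ < 1` for some `η > 0` and arbitrarily large `q`. -/
def PS (α β : ℝ) : Prop :=
  ∃ η : ℝ, 0 < η ∧ ∀ N : ℕ, ∃ q : ℕ, N ≤ q ∧ 0 < q ∧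
    (q : ℝ) ^ (1 + η) * |(q : ℝ) * α - (round ((q : ℝ) * α) : ℝ)|
      * |(q : ℝ) * β - (round ((q : ℝ) * β) : ℝ)| < 1

lemma ps_of_inf {α β η : ℝ} (hη : 0 < η)
    (h : ∀ δ : ℝ, 0 < δ → ∃ q : ℕ, 0 < q ∧
      (q : ℝ) ^ (1 + η) * |(q : ℝ) * α - (round ((q : ℝ) * α) : ℝ)|
      * |(q : ℝ) * β - (round ((q : ℝ) * β) : ℝ)| < δ) : PS α β := by
  refine ⟨η, hη, fun N => ?_⟩
  have hN : (0 : ℝ) < ((N + 1 : ℕ) : ℝ) := by positivity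
  have hP : (0 : ℝ) < ((N + 1 : ℕ) : ℝ) ^ (1 + η) := Real.rpow_pos_of_pos hN _
  obtain ⟨q, hq, hlt⟩ := h (1 / (((N + 1 : ℕ) : ℝ) ^ (1 + η) * ((N + 1 : ℕ) : ℝ) ^ 2)) (by positivity)
  refine ⟨(N + 1) * q, by nlinarith, by positivity, ?_⟩
  have h1 := dist_scale ((q : ℝ) * α) (N + 1)
  have h2 := dist_scale ((q : ℝ) * β) (N + 1)
  rw [lt_div_iff₀ (by positivity)] at hlt
  have e1 : (((N + 1) * q : ℕ) : ℝ) * α = ((N + 1 : ℕ) : ℝ) * ((q : ℝ) * α) := by push_cast; ring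
  have e2 : (((N + 1) * q : ℕ) : ℝ) * β = ((N + 1 : ℕ) : ℝ) * ((q : ℝ) * β) := by push_cast; ring
  have e3 : (((N + 1) * q : ℕ) : ℝ) ^ (1 + η) = ((N + 1 : ℕ) : ℝ) ^ (1 + η) * (q : ℝ) ^ (1 + η) := by
    rw [Nat.cast_mul, Real.mul_rpow hN.le (Nat.cast_nonneg _)]
  rw [e1, e2, e3]
  refine lt_of_le_of_lt ?_ hlt
  have hq0 : (0 : ℝ) ≤ (q : ℝ) ^ (1 + η) := Real.rpow_nonneg (Nat.cast_nonneg _) _
  calc ((N + 1 : ℕ) : ℝ) ^ (1 + η) * (q : ℝ) ^ (1 + η) * |((N + 1 : ℕ) : ℝ) * ((q : ℝ) * α)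
          - round (((N + 1 : ℕ) : ℝ) * ((q : ℝ) * α))|
        * |((N + 1 : ℕ) : ℝ) * ((q : ℝ) * β) - round (((N + 1 : ℕ) : ℝ) * ((q : ℝ) * β))|
      ≤ ((N + 1 : ℕ) : ℝ) ^ (1 + η) * (q : ℝ) ^ (1 + η)
          * (((N + 1 : ℕ) : ℝ) * |(q : ℝ) * α - round ((q : ℝ) * α)|)
        * (((N + 1 : ℕ) : ℝ) * |(q : ℝ) * β - round ((q : ℝ) * β)|) := by
        gcongr
    _ = _ := by ring

theorem lc_final (hb : Base t ε) (d : ℕ → ℤ) (B : ℝ) (hB : ∀ k, |(d k : ℝ)| ≤ B)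
    (h : ∀ K, Rel ε 0 d K) (a b x y z w : ℚ) :
    LC (a + b * ε) ((x + y * ε) * tl ε d 0 + (z + w * ε)) := by
  obtain ⟨N, C, hN, hC, hmain⟩ := raw2 hb 0 le_rfl d B hB h a b x y z w
  refine lc_of_inf fun δ hδ => ?_
  obtain ⟨K, hK⟩ : ∃ K : ℕ, C * (1 / 2) ^ K < δ := by
    have ht : Filter.Tendsto (fun K : ℕ => C * (1 / 2 : ℝ) ^ K) Filter.atTop (nhds (C * 0)) :=
      (tendsto_pow_atTop_nhds_zero_of_lt_one (by norm_num) (by norm_num)).const_mul _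
    rw [mul_zero] at ht
    exact (ht.eventually (gt_mem_nhds hδ)).exists
  obtain ⟨q, s, r, Y, hq, -, -, -, h1⟩ := hmain K
  refine ⟨q, hq, lt_of_le_of_lt (h1.trans ?_) hK⟩
  have h2 : ε⁻¹ ^ r ≤ 1 := pow_le_one₀ hb.rpos.le hb.rlt.le
  have h3 : 0 ≤ C * (1 / 2) ^ K := by positivity
  nlinarith

theorem ps_final (hb : Base t ε) (κ : ℝ) (hκ : 0 < κ) (d : ℕ → ℤ) (B : ℝ)
    (hB : ∀ k, |(d k : ℝ)| ≤ B) (h : ∀ K, Rel ε κ d K) (a b x y z w : ℚ) :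
    PS (a + b * ε) ((x + y * ε) * tl ε d 0 + (z + w * ε)) := by
  obtain ⟨N, C, hN, hC, hmain⟩ := raw2 hb κ hκ.le d B hB h a b x y z w
  have hε := hb.pos
  refine ps_of_inf (η := κ / 2) (by linarith) fun δ hδ => ?_
  have hNr : (0 : ℝ) < N := by exact_mod_cast hN
  set C2 : ℝ := (N : ℝ) ^ (κ / 2) * C with hC2
  have hC20 : 0 ≤ C2 := by
    have := Real.rpow_nonneg hNr.le (κ / 2)
    positivity
  obtain ⟨K, hK⟩ : ∃ K : ℕ, C2 * (1 / 2) ^ K < δ := by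
    have ht : Filter.Tendsto (fun K : ℕ => C2 * (1 / 2 : ℝ) ^ K) Filter.atTop (nhds (C2 * 0)) :=
      (tendsto_pow_atTop_nhds_zero_of_lt_one (by norm_num) (by norm_num)).const_mul _
    rw [mul_zero] at ht
    exact (ht.eventually (gt_mem_nhds hδ)).exists
  obtain ⟨q, s, r, Y, hq, hqb, hsr, -, h1⟩ := hmain K
  refine ⟨q, hq, lt_of_le_of_lt ?_ hK⟩
  have hqr : (0 : ℝ) < q := by exact_mod_cast hq
  have e1 : (q : ℝ) ^ (1 + κ / 2) = (q : ℝ) ^ (κ / 2) * q := by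
    rw [Real.rpow_add hqr, Real.rpow_one, mul_comm]
  have e2 : (q : ℝ) ^ (κ / 2) ≤ (N : ℝ) ^ (κ / 2) * ε ^ r := by
    calc (q : ℝ) ^ (κ / 2) ≤ ((N : ℝ) * ε ^ (2 * s)) ^ (κ / 2) :=
          Real.rpow_le_rpow hqr.le hqb (by linarith)
      _ = (N : ℝ) ^ (κ / 2) * (ε ^ (2 * s)) ^ (κ / 2) :=
          Real.mul_rpow hNr.le (pow_pos hε _).le
      _ = (N : ℝ) ^ (κ / 2) * ε ^ (κ * s) := by
          rw [← Real.rpow_natCast ε (2 * s), ← Real.rpow_mul hε.le]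
          congr 2
          push_cast
          ring
      _ ≤ (N : ℝ) ^ (κ / 2) * ε ^ (r : ℝ) := by
          have := Real.rpow_nonneg hNr.le (κ / 2)
          exact mul_le_mul_of_nonneg_left (Real.rpow_le_rpow_of_exponent_le hb.h1.le hsr) this
      _ = _ := by rw [Real.rpow_natCast]
  have e3 : ε ^ r * ε⁻¹ ^ r = 1 := by rw [← mul_pow, hb.mul, one_pow]
  have hN2 := Real.rpow_nonneg hNr.le (κ / 2)
  rw [e1]
  set d1 := |(q : ℝ) * (a + b * ε) - round ((q : ℝ) * (a + b * ε))| with hd1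
  set d2 := |(q : ℝ) * ((x + y * ε) * tl ε d 0 + (z + w * ε))
          - round ((q : ℝ) * ((x + y * ε) * tl ε d 0 + (z + w * ε)))| with hd2
  calc (q : ℝ) ^ (κ / 2) * q * d1 * d2 = (q : ℝ) ^ (κ / 2) * (q * d1 * d2) := by ring
    _ ≤ ((N : ℝ) ^ (κ / 2) * ε ^ r) * (C * (1 / 2) ^ K * ε⁻¹ ^ r) := by
        have : 0 ≤ (q : ℝ) * d1 * d2 := by positivity
        gcongr
    _ = (N : ℝ) ^ (κ / 2) * C * (1 / 2) ^ K * (ε ^ r * ε⁻¹ ^ r) := by ring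
    _ = C2 * (1 / 2) ^ K := by rw [e3, mul_one]

end Pool.Agent.Helper553.DR
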