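import Pool.Agent.Helper553_DR.Norm

/-! # Littlewood's conjecture for dihedral relations -/

set_option autoImplicit false

open Finset

namespace Pool.Agent.Helper553.DR

open Pool.H389R2.LC
open Pool.Agent.W13.LM (LC lc_of_inf)

variable {t : ℤ} {ε : ℝ}

/-- the relations, with a general finite index set -/
def Rel (ε κ : ℝ) (d : ℕ → ℤ) (K : ℕ) : Prop :=
  ∃ (ι : Type) (_ : Fintype ι) (c e : ι → ℤ) (p : ι → ℕ) (s g L : ℕ),
    (∀ i, p i ≤ g) ∧ 2 * (L + g) ≤ s ∧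
    2 * g + κ * s + K * (1 + Nat.log 2 (∑ i, ((c i).natAbs + (e i).natAbs))) ≤ (L : ℝ) ∧
    (∑ i, (c i : ℝ) * ε ^ p i ≠ 0 ∨ ∑ i, (e i : ℝ) * ε ^ p i ≠ 0) ∧
    ∀ k, s ≤ 2 * k + 2 * L → 2 * k ≤ s + 2 * L →
      ∑ i, c i * d (k + p i) = ∑ i, e i * d (s - k - p i)

/-- the combination of the remainders -/
noncomputable def uu {ι : Type} [Fintype ι] (t : ℤ) (ε : ℝ) (d : ℕ → ℤ) (c e : ι → ℤ) (p : ι → ℕ)
    (s m : ℕ) : ℝ :=
  ∑ i, (c i : ℝ) * vv t ε d (m + p i) - ∑ i, (e i : ℝ) * vv t ε d (s - m - p i)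

lemma uu_rec {ι : Type} [Fintype ι] (d : ℕ → ℤ) (c e : ι → ℤ) (p : ι → ℕ)
    (s g k : ℕ) (hp : ∀ i, p i ≤ g) (hk : k + 2 + g ≤ s)
    (h : ∑ i, c i * d (k + 1 + p i) = ∑ i, e i * d (s - (k + 1) - p i)) :
    uu t ε d c e p s (k + 2) = t * uu t ε d c e p s (k + 1) - uu t ε d c e p s k := by
  have h' : ∑ i, (c i : ℝ) * (d (k + 1 + p i) : ℝ) = ∑ i, (e i : ℝ) * (d (s - (k + 1) - p i) : ℝ) := by
    exact_mod_cast h
  have e1 : ∑ i, (c i : ℝ) * vv t ε d (k + 2 + p i)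
      = t * ∑ i, (c i : ℝ) * vv t ε d (k + 1 + p i) - ∑ i, (c i : ℝ) * vv t ε d (k + p i)
        - ∑ i, (c i : ℝ) * (d (k + 1 + p i) : ℝ) := by
    rw [mul_sum, ← sum_sub_distrib, ← sum_sub_distrib]
    refine sum_congr rfl fun i _ => ?_
    rw [show k + 2 + p i = k + p i + 2 by ring, show k + 1 + p i = k + p i + 1 by ring, vv_rec]
    ring
  have e2 : ∑ i, (e i : ℝ) * vv t ε d (s - (k + 2) - p i)
      = t * ∑ i, (e i : ℝ) * vv t ε d (s - (k + 1) - p i) - ∑ i, (e i : ℝ) * vv t ε d (s - k - p i)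
        - ∑ i, (e i : ℝ) * (d (s - (k + 1) - p i) : ℝ) := by
    rw [mul_sum, ← sum_sub_distrib, ← sum_sub_distrib]
    refine sum_congr rfl fun i _ => ?_
    have hpi := hp i
    have hr := vv_rec (t := t) (ε := ε) d (s - (k + 2) - p i)
    rw [show s - k - p i = s - (k + 2) - p i + 2 by omega,
      show s - (k + 1) - p i = s - (k + 2) - p i + 1 by omega, hr]
    ring
  unfold uu
  rw [e1, e2, h']
  ring

/-- the approximations given by one relation -/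
theorem raw (hb : Base t ε) (κ : ℝ) (hκ : 0 ≤ κ) (d : ℕ → ℤ) (B : ℝ) (hB : ∀ k, |(d k : ℝ)| ≤ B)
    (Z W : ℤ) (K' : ℕ) (h : Rel ε κ d (K' + 3)) :
    ∃ (q s r : ℕ) (I1 I2 : ℤ) (X Y V : ℝ), 0 < q ∧ (q : ℝ) ≤ X ∧ |(q : ℝ) * ε - I1| ≤ Y ∧
      |(q : ℝ) * (tl ε d 0 + Z + W * ε) - I2| ≤ V ∧
      X * Y * V ≤ (10 * B * (1 + ε) + |(W : ℝ)|) * ε ^ 4 * (1 / 2) ^ K' * ε⁻¹ ^ r ∧
      κ * s ≤ r ∧ X ≤ ε ^ (2 * s) := by
  have hB0 : 0 ≤ B := (abs_nonneg _).trans (hB 0)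
  have hε := hb.pos
  have hρ := hb.rpos
  have hm := hb.mul
  have hh := half hb
  set C1 : ℝ := 10 * B * (1 + ε) + |(W : ℝ)| with hC1
  have hC10 : 0 ≤ C1 := by positivity
  obtain ⟨ι, _, c, e, p, s, g, L, hp, hs, hL0, hne, hrel⟩ := h
  set Mn : ℕ := ∑ i, ((c i).natAbs + (e i).natAbs) with hMn
  set M : ℝ := (Mn : ℝ) with hM
  have hM0 : 0 ≤ M := Nat.cast_nonneg _
  set lg : ℕ := Nat.log 2 Mn with hlg
  have hL : 2 * g + (K' + 3) * (1 + lg) ≤ L := by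
    have h1 : ((2 * g + (K' + 3) * (1 + lg) : ℕ) : ℝ) ≤ L := by
      push_cast
      push_cast at hL0
      have : 0 ≤ κ * s := by positivity
      linarith
    exact_mod_cast h1
  obtain ⟨r, hr⟩ : ∃ r, L = 2 * g + (K' + 3) * (1 + lg) + r := Nat.exists_eq_add_of_le hL
  have hκr : κ * s ≤ r := by
    have h1 : (L : ℝ) = 2 * g + (K' + 3) * (1 + lg) + r := by rw [hr]; push_cast; ring
    rw [h1] at hL0
    push_cast at hL0
    linarith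
  set T : ℝ := 2 ^ (1 + lg) with hT
  have hT0 : 0 < T := by positivity
  have hT2 : 2 ≤ T := by
    rw [hT, pow_add, pow_one]
    have : (1 : ℝ) ≤ 2 ^ lg := one_le_pow₀ (by norm_num)
    linarith
  have hMT : M ≤ T := by
    have h1 : Mn < 2 ^ (lg + 1) := Nat.lt_pow_succ_log_self (by norm_num) Mn
    have h2 : Mn ≤ 2 ^ (1 + lg) := by rw [add_comm 1 lg]; exact h1.le
    rw [hM, hT]
    exact_mod_cast h2
  have hlg3 : 3 ≤ (K' + 3) * (1 + lg) := by nlinarith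
  set h' : ℕ := s / 2 with hh'
  have hLg : L + g ≤ h' := by omega
  -- powers
  have hpow : ε⁻¹ ^ ((K' + 3) * (1 + lg)) ≤ T⁻¹ ^ (K' + 3) := by
    have h1 : ε⁻¹ ^ ((K' + 3) * (1 + lg)) ≤ (1 / 2) ^ ((K' + 3) * (1 + lg)) :=
      pow_le_pow_left₀ hρ.le hh _
    refine h1.trans (le_of_eq ?_)
    rw [mul_comm, pow_mul, hT, one_div, inv_pow]
  have hbig : M ^ 2 * ε ^ g < ε ^ s := by
    have h1 : M ^ 2 ≤ T ^ 2 := pow_le_pow_left₀ hM0 hMT 2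
    have h2 : T ^ 2 ≤ T ^ (K' + 3) := pow_le_pow_right₀ (by linarith) (by omega)
    have h3 : T ^ (K' + 3) ≤ ε ^ ((K' + 3) * (1 + lg)) := by
      rw [hT, ← pow_mul, mul_comm (1 + lg)]
      exact pow_le_pow_left₀ (by norm_num) hb.two_lt.le _
    have h4 : ε ^ ((K' + 3) * (1 + lg)) * ε ^ g < ε ^ s := by
      rw [← pow_add]
      exact pow_lt_pow_right₀ hb.h1 (by omega)
    calc M ^ 2 * ε ^ g ≤ ε ^ ((K' + 3) * (1 + lg)) * ε ^ g := by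
          have := pow_pos hε g
          gcongr
          linarith
      _ < _ := h4
  obtain ⟨m, hmh, hq⟩ := nonvanish hb c e p s g h' hp (by omega) hbig hne
  set Q : ℤ := qq t c e p s m with hQ
  have hm1 : h' ≤ m := by omega
  have hm2 : m ≤ h' + 1 := by omega
  -- size of Q
  have hQr : (Q : ℝ) = ∑ i, (c i : ℝ) * U t (m + p i) - ∑ i, (e i : ℝ) * U t (s - m - p i) := by
    rw [hQ]; unfold qq; push_cast; rfl
  have hQb : |(Q : ℝ)| ≤ M * ε ^ (h' + 1 + g) := by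
    rw [hQr]
    have hU : ∀ k, k ≤ h' + 1 + g → |(U t k : ℝ)| ≤ ε ^ (h' + 1 + g) := by
      intro k hk
      have h0 : (0 : ℝ) ≤ U t k := by exact_mod_cast hb.U_nonneg k
      rw [abs_of_nonneg h0]
      exact (hb.U_upper k).trans (pow_le_pow_right₀ hb.h1.le hk)
    exact comb_bound c e (fun i => (U t (m + p i) : ℝ)) (fun i => (U t (s - m - p i) : ℝ)) _
      (fun i => hU _ (by have := hp i; omega)) (fun i => hU _ (by omega))
  -- Q ε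
  set Δ : ℝ := ∑ i, (c i : ℝ) * ε⁻¹ ^ (m + p i) - ∑ i, (e i : ℝ) * ε⁻¹ ^ (s - m - p i) with hΔ
  have hΔb : |Δ| ≤ M * ε⁻¹ ^ (h' - 1 - g) := by
    have hR : ∀ k, h' - 1 - g ≤ k → |ε⁻¹ ^ k| ≤ ε⁻¹ ^ (h' - 1 - g) := by
      intro k hk
      rw [abs_of_pos (pow_pos hρ _)]
      exact pow_le_pow_of_le_one hρ.le hb.rlt.le hk
    exact comb_bound c e (fun i => ε⁻¹ ^ (m + p i)) (fun i => ε⁻¹ ^ (s - m - p i)) _
      (fun i => hR _ (by omega)) (fun i => hR _ (by have := hp i; omega))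
  set I1 : ℤ := ∑ i, c i * U t (m + p i + 1) - ∑ i, e i * U t (s - m - p i + 1) with hI1
  have hQε : (Q : ℝ) * ε = I1 - Δ := by
    rw [hQr, hI1, hΔ, sub_mul, sum_mul, sum_mul]
    push_cast
    have e1 : ∑ i, (c i : ℝ) * U t (m + p i) * ε
        = ∑ i, (c i : ℝ) * U t (m + p i + 1) - ∑ i, (c i : ℝ) * ε⁻¹ ^ (m + p i) := by
      rw [← sum_sub_distrib]
      refine sum_congr rfl fun i _ => ?_
      rw [← hb.U_diff (m + p i)]
      ring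
    have e2 : ∑ i, (e i : ℝ) * U t (s - m - p i) * ε
        = ∑ i, (e i : ℝ) * U t (s - m - p i + 1) - ∑ i, (e i : ℝ) * ε⁻¹ ^ (s - m - p i) := by
      rw [← sum_sub_distrib]
      refine sum_congr rfl fun i _ => ?_
      rw [← hb.U_diff (s - m - p i)]
      ring
    rw [e1, e2]
    ring
  -- Q β
  set I2 : ℤ := ∑ i, c i * nn t d (m + p i) - ∑ i, e i * nn t d (s - m - p i) with hI2
  have hQβ : (Q : ℝ) * tl ε d 0 = I2 + uu t ε d c e p s m := by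
    rw [hQr, hI2, sub_mul, sum_mul, sum_mul]
    unfold uu vv
    push_cast
    have e1 : ∑ i, (c i : ℝ) * U t (m + p i) * tl ε d 0 = ∑ i, (c i : ℝ) * nn t d (m + p i)
        + ∑ i, (c i : ℝ) * ((U t (m + p i) : ℝ) * tl ε d 0 - nn t d (m + p i)) := by
      rw [← sum_add_distrib]
      exact sum_congr rfl fun i _ => by ring
    have e2 : ∑ i, (e i : ℝ) * U t (s - m - p i) * tl ε d 0 = ∑ i, (e i : ℝ) * nn t d (s - m - p i)
        + ∑ i, (e i : ℝ) * ((U t (s - m - p i) : ℝ) * tl ε d 0 - nn t d (s - m - p i)) := by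
      rw [← sum_add_distrib]
      exact sum_congr rfl fun i _ => by ring
    rw [e1, e2]
    ring
  -- smallness of u
  have hub : ∀ k, |uu t ε d c e p s k| ≤ M * (5 * B) := by
    intro k
    exact comb_bound c e (fun i => vv t ε d (k + p i)) (fun i => vv t ε d (s - k - p i)) _
      (fun i => vv_bound hb d B hB _) (fun i => vv_bound hb d B hB _)
  have hwin := window hb (uu t ε d c e p s) (M * (5 * B)) hub (h' - L) m (h' + L - 1)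
    (by omega) (by omega) (by
      intro k hk1 hk2
      exact uu_rec d c e p s g k hp (by omega) (hrel (k + 1) (by omega) (by omega)))
  have hu : |uu t ε d c e p s m| ≤ (1 + ε) * (M * (5 * B)) * (2 * ε⁻¹ ^ (L - 2)) := by
    refine hwin.trans ?_
    have h1 : ε⁻¹ ^ (h' + L - 1 - m) ≤ ε⁻¹ ^ (L - 2) :=
      pow_le_pow_of_le_one hρ.le hb.rlt.le (by omega)
    have h2 : ε⁻¹ ^ (m - (h' - L)) ≤ ε⁻¹ ^ (L - 2) :=
      pow_le_pow_of_le_one hρ.le hb.rlt.le (by omega)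
    have h3 : 0 ≤ (1 + ε) * (M * (5 * B)) := by positivity
    refine mul_le_mul_of_nonneg_left ?_ h3
    linarith
  have hΔ2 : |Δ| ≤ M * ε⁻¹ ^ (L - 2) := by
    refine hΔb.trans ?_
    refine mul_le_mul_of_nonneg_left ?_ hM0
    exact pow_le_pow_of_le_one hρ.le hb.rlt.le (by omega)
  -- the natural number
  obtain ⟨σ, hσ, hσQ⟩ : ∃ σ : ℤ, |(σ : ℝ)| = 1 ∧ ((Q.natAbs : ℕ) : ℝ) = σ * Q := by
    rcases le_total 0 Q with h0 | h0
    · refine ⟨1, by norm_num, ?_⟩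
      rw [Nat.cast_natAbs, abs_of_nonneg h0]; push_cast; ring
    · refine ⟨-1, by norm_num, ?_⟩
      rw [Nat.cast_natAbs, abs_of_nonpos h0]; push_cast; ring
  have hQn : ((Q.natAbs : ℕ) : ℝ) ≤ M * ε ^ (h' + 1 + g) := by
    rw [Nat.cast_natAbs, Int.cast_abs]
    exact hQb
  refine ⟨Q.natAbs, s, r, σ * I1, σ * (I2 + Q * Z + W * I1), M * ε ^ (h' + 1 + g),
    M * ε⁻¹ ^ (h' - 1 - g), C1 * M * ε⁻¹ ^ (L - 2), Int.natAbs_pos.2 hq, hQn, ?_, ?_, ?_, hκr, ?_⟩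
  · have : ((Q.natAbs : ℕ) : ℝ) * ε - ((σ * I1 : ℤ) : ℝ) = - (σ * Δ) := by
      rw [hσQ]
      push_cast
      linear_combination (σ : ℝ) * hQε
    rw [this, abs_neg, abs_mul, hσ, one_mul]
    exact hΔb
  · have : ((Q.natAbs : ℕ) : ℝ) * (tl ε d 0 + Z + W * ε) - ((σ * (I2 + Q * Z + W * I1) : ℤ) : ℝ)
        = σ * (uu t ε d c e p s m - W * Δ) := by
      rw [hσQ]
      push_cast
      linear_combination (σ : ℝ) * hQβ + (σ : ℝ) * W * hQε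
    rw [this, abs_mul, hσ, one_mul]
    refine (abs_sub _ _).trans ?_
    rw [abs_mul]
    calc |uu t ε d c e p s m| + |(W : ℝ)| * |Δ|
        ≤ (1 + ε) * (M * (5 * B)) * (2 * ε⁻¹ ^ (L - 2)) + |(W : ℝ)| * (M * ε⁻¹ ^ (L - 2)) := by
          gcongr
      _ = _ := by rw [hC1]; ring
  · have hε4 : ε⁻¹ ^ (L - 2) ≤ ε ^ 2 * (ε⁻¹ ^ (2 * g) * T⁻¹ ^ (K' + 3) * ε⁻¹ ^ r) := by
      have h1 : ε⁻¹ ^ (L - 2) = ε ^ 2 * ε⁻¹ ^ L := by
        have h2 : ε⁻¹ ^ L = ε⁻¹ ^ (L - 2) * ε⁻¹ ^ 2 := by rw [← pow_add]; congr 1; omega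
        have : ε ^ 2 * ε⁻¹ ^ 2 = 1 := by rw [← mul_pow, hm, one_pow]
        rw [h2]
        linear_combination (-ε⁻¹ ^ (L - 2)) * this
      rw [h1]
      refine mul_le_mul_of_nonneg_left ?_ (by positivity)
      calc ε⁻¹ ^ L = ε⁻¹ ^ (2 * g) * ε⁻¹ ^ ((K' + 3) * (1 + lg)) * ε⁻¹ ^ r := by
            rw [← pow_add, ← pow_add, ← hr]
        _ ≤ _ := by gcongr
    have hcomb : ε ^ (h' + 1 + g) * ε⁻¹ ^ (h' - 1 - g) = ε ^ 2 * ε ^ (2 * g) := by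
      have h1 : ε ^ (h' - 1 - g) * ε⁻¹ ^ (h' - 1 - g) = 1 := by rw [← mul_pow, hm, one_pow]
      rw [show h' + 1 + g = (h' - 1 - g) + 2 + 2 * g by omega, pow_add, pow_add]
      linear_combination (ε ^ 2 * ε ^ (2 * g)) * h1
    have hgg : ε ^ (2 * g) * ε⁻¹ ^ (2 * g) = 1 := by rw [← mul_pow, hm, one_pow]
    have hM3 : M ^ 3 * T⁻¹ ^ 3 ≤ 1 := by
      have h1 : M ^ 3 ≤ T ^ 3 := pow_le_pow_left₀ hM0 hMT 3
      have h2 : T ^ 3 * T⁻¹ ^ 3 = 1 := by rw [← mul_pow, mul_inv_cancel₀ hT0.ne', one_pow]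
      calc M ^ 3 * T⁻¹ ^ 3 ≤ T ^ 3 * T⁻¹ ^ 3 := by gcongr
        _ = 1 := h2
    have hTK : T⁻¹ ^ K' ≤ (1 / 2) ^ K' := by
      refine pow_le_pow_left₀ (by positivity) ?_ _
      rw [one_div]
      exact inv_anti₀ (by norm_num) hT2
    calc (M * ε ^ (h' + 1 + g)) * (M * ε⁻¹ ^ (h' - 1 - g)) * (C1 * M * ε⁻¹ ^ (L - 2))
        = C1 * M ^ 3 * (ε ^ (h' + 1 + g) * ε⁻¹ ^ (h' - 1 - g)) * ε⁻¹ ^ (L - 2) := by ring
      _ = C1 * M ^ 3 * (ε ^ 2 * ε ^ (2 * g)) * ε⁻¹ ^ (L - 2) := by rw [hcomb]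
      _ ≤ C1 * M ^ 3 * (ε ^ 2 * ε ^ (2 * g))
            * (ε ^ 2 * (ε⁻¹ ^ (2 * g) * T⁻¹ ^ (K' + 3) * ε⁻¹ ^ r)) := by
          gcongr
      _ = C1 * ε ^ 4 * (ε ^ (2 * g) * ε⁻¹ ^ (2 * g)) * (M ^ 3 * T⁻¹ ^ 3) * T⁻¹ ^ K' * ε⁻¹ ^ r := by
          ring
      _ = C1 * ε ^ 4 * (M ^ 3 * T⁻¹ ^ 3) * T⁻¹ ^ K' * ε⁻¹ ^ r := by rw [hgg, mul_one]
      _ ≤ C1 * ε ^ 4 * 1 * (1 / 2) ^ K' * ε⁻¹ ^ r := by gcongr
      _ = _ := by ring
  · have h1 : T ≤ ε ^ L := by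
      calc T ≤ ε ^ (1 + lg) := pow_le_pow_left₀ (by norm_num) hb.two_lt.le _
        _ ≤ ε ^ L := pow_le_pow_right₀ hb.h1.le (by nlinarith)
    calc M * ε ^ (h' + 1 + g) ≤ ε ^ L * ε ^ (h' + 1 + g) := by
          have := pow_pos hε (h' + 1 + g)
          gcongr
          exact hMT.trans h1
      _ = ε ^ (L + (h' + 1 + g)) := (pow_add _ _ _).symm
      _ ≤ ε ^ (2 * s) := pow_le_pow_right₀ hb.h1.le (by omega)

end Pool.Agent.Helper553.DR
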