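import Pool.Agent.Helper553_DR.Core

/-! # Nonvanishing -/

set_option autoImplicit false

open Finset

namespace Pool.Agent.Helper553.DR

open Pool.H389R2.LC

variable {t : ℤ} {ε : ℝ}

lemma U_diff' (hb : Base t ε) (n : ℕ) : (U t (n + 1) : ℝ) - ε⁻¹ * (U t n : ℝ) = ε ^ n := by
  have h1 := hb.binet n
  have h2 := hb.binet (n + 1)
  have h3 := hb.mul
  have : (ε - ε⁻¹) * ((U t (n + 1) : ℝ) - ε⁻¹ * (U t n : ℝ)) = (ε - ε⁻¹) * ε ^ n := by
    calc (ε - ε⁻¹) * ((U t (n + 1) : ℝ) - ε⁻¹ * (U t n : ℝ))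
        = (ε - ε⁻¹) * (U t (n + 1) : ℝ) - ε⁻¹ * ((ε - ε⁻¹) * (U t n : ℝ)) := by ring
      _ = (ε ^ (n + 1) - ε⁻¹ ^ (n + 1)) - ε⁻¹ * (ε ^ n - ε⁻¹ ^ n) := by rw [h1, h2]
      _ = (ε - ε⁻¹) * ε ^ n := by ring
  exact mul_left_cancel₀ hb.δne this

lemma irr (hb : Base t ε) : Irrational ε := by
  have h1 : Irrational (2 * ε - t) := by
    refine irrational_nrt_of_notint_nrt 2 (t ^ 2 - 4) ?_ ?_ (by norm_num)
    · push_cast
      linear_combination 4 * hb.hq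
    · rintro ⟨y, hy⟩
      have h2 : ((y : ℝ)) ^ 2 = (t : ℝ) ^ 2 - 4 := by
        rw [← hy]
        linear_combination 4 * hb.hq
      have h3 : y ^ 2 = t ^ 2 - 4 := by exact_mod_cast h2
      have ht := hb.ht
      have h4 : |y| < t := abs_lt_of_sq_lt_sq (by linarith) (by linarith)
      have h5 : t - 1 < |y| := by
        by_contra hcon
        push Not at hcon
        have h6 : |y| ^ 2 ≤ (t - 1) ^ 2 := by
          have := abs_nonneg y
          nlinarith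
        rw [sq_abs] at h6
        nlinarith
      omega
  intro h
  apply h1
  obtain ⟨r, hr⟩ := h
  exact ⟨2 * r - t, by push_cast; rw [hr]⟩

lemma conj (hb : Base t ε) {ι : Type} [Fintype ι] (c : ι → ℤ) (p : ι → ℕ) :
    ∃ P Q : ℤ, ∑ i, (c i : ℝ) * ε ^ p i = P + Q * ε ∧ ∑ i, (c i : ℝ) * ε⁻¹ ^ p i = P + Q * ε⁻¹ := by
  have ha := hb.add
  refine ⟨∑ i, c i * (U t (p i + 1) - t * U t (p i)), ∑ i, c i * U t (p i), ?_, ?_⟩
  · push_cast
    rw [sum_mul, ← sum_add_distrib]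
    refine sum_congr rfl fun i _ => ?_
    have h := U_diff' hb (p i)
    rw [← h, ← ha]
    ring
  · push_cast
    rw [sum_mul, ← sum_add_distrib]
    refine sum_congr rfl fun i _ => ?_
    have h := hb.U_diff (p i)
    rw [← h, ← ha]
    ring

lemma norm_ge (hb : Base t ε) {ι : Type} [Fintype ι] (c : ι → ℤ) (p : ι → ℕ)
    (hne : ∑ i, (c i : ℝ) * ε ^ p i ≠ 0) :
    1 ≤ |∑ i, (c i : ℝ) * ε ^ p i| * |∑ i, (c i : ℝ) * ε⁻¹ ^ p i| := by
  obtain ⟨P, Q, h1, h2⟩ := conj hb c p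
  have hi := irr hb
  have hne2 : ∑ i, (c i : ℝ) * ε⁻¹ ^ p i ≠ 0 := by
    intro h0
    rw [h2] at h0
    have h3 : (P : ℝ) * ε + Q = 0 := by
      have := congrArg (fun z => z * ε) h0
      simp only [zero_mul] at this
      rw [add_mul, mul_assoc, inv_mul_cancel₀ hb.ne, mul_one] at this
      exact this
    have hP : P = 0 := by
      by_contra hP
      apply hi
      have hP' : (P : ℝ) ≠ 0 := by exact_mod_cast hP
      refine ⟨-Q / P, ?_⟩
      push_cast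
      field_simp
      linarith
    have hQ : Q = 0 := by
      rw [hP] at h3
      push_cast at h3
      have : (Q : ℝ) = 0 := by linarith
      exact_mod_cast this
    apply hne
    rw [h1, hP, hQ]
    push_cast
    ring
  rw [← abs_mul]
  have hprod : (∑ i, (c i : ℝ) * ε ^ p i) * (∑ i, (c i : ℝ) * ε⁻¹ ^ p i)
      = ((P ^ 2 + t * P * Q + Q ^ 2 : ℤ) : ℝ) := by
    rw [h1, h2]
    push_cast
    rw [← hb.add]
    linear_combination ((Q : ℝ) ^ 2) * hb.mul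
  have hne3 := mul_ne_zero hne hne2
  rw [hprod] at hne3 ⊢
  have h4 : (P ^ 2 + t * P * Q + Q ^ 2 : ℤ) ≠ 0 := by exact_mod_cast hne3
  have h5 := Int.one_le_abs h4
  exact_mod_cast h5

lemma comb_bound {ι : Type} [Fintype ι] (c e : ι → ℤ) (a b : ι → ℝ) (X : ℝ)
    (ha : ∀ i, |a i| ≤ X) (hb : ∀ i, |b i| ≤ X) :
    |∑ i, (c i : ℝ) * a i - ∑ i, (e i : ℝ) * b i|
      ≤ ((∑ i, ((c i).natAbs + (e i).natAbs) : ℕ) : ℝ) * X := by
  have h1 : |∑ i, (c i : ℝ) * a i| ≤ ∑ i, ((c i).natAbs : ℝ) * X := by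
    refine (abs_sum_le_sum_abs _ _).trans (sum_le_sum fun i _ => ?_)
    rw [abs_mul, Nat.cast_natAbs, Int.cast_abs]
    exact mul_le_mul_of_nonneg_left (ha i) (abs_nonneg _)
  have h2 : |∑ i, (e i : ℝ) * b i| ≤ ∑ i, ((e i).natAbs : ℝ) * X := by
    refine (abs_sum_le_sum_abs _ _).trans (sum_le_sum fun i _ => ?_)
    rw [abs_mul, Nat.cast_natAbs, Int.cast_abs]
    exact mul_le_mul_of_nonneg_left (hb i) (abs_nonneg _)
  refine (abs_sub _ _).trans ((add_le_add h1 h2).trans (le_of_eq ?_))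
  push_cast
  rw [sum_mul, ← sum_add_distrib]
  exact sum_congr rfl fun i _ => by ring

/-- the denominators -/
def qq {ι : Type} [Fintype ι] (t : ℤ) (c e : ι → ℤ) (p : ι → ℕ) (s m : ℕ) : ℤ :=
  ∑ i, c i * U t (m + p i) - ∑ i, e i * U t (s - m - p i)

lemma nonvanish (hb : Base t ε) {ι : Type} [Fintype ι] (c e : ι → ℤ) (p : ι → ℕ) (s g h : ℕ)
    (hp : ∀ i, p i ≤ g) (hs : h + 1 + g ≤ s)
    (hbig : ((∑ i, ((c i).natAbs + (e i).natAbs) : ℕ) : ℝ) ^ 2 * ε ^ g < ε ^ s)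
    (hne : ∑ i, (c i : ℝ) * ε ^ p i ≠ 0 ∨ ∑ i, (e i : ℝ) * ε ^ p i ≠ 0) :
    ∃ m, (m = h ∨ m = h + 1) ∧ qq t c e p s m ≠ 0 := by
  by_contra hcon
  push Not at hcon
  have q0 := hcon h (Or.inl rfl)
  have q1 := hcon (h + 1) (Or.inr rfl)
  have hε := hb.pos
  have hρ := hb.rpos
  have hm := hb.mul
  have r0 : ∑ i, (c i : ℝ) * U t (h + p i) - ∑ i, (e i : ℝ) * U t (s - h - p i) = 0 := by
    have : ((qq t c e p s h : ℤ) : ℝ) = 0 := by rw [q0]; norm_num
    unfold qq at this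
    push_cast at this
    exact this
  have r1 : ∑ i, (c i : ℝ) * U t (h + 1 + p i) - ∑ i, (e i : ℝ) * U t (s - (h + 1) - p i) = 0 := by
    have : ((qq t c e p s (h + 1) : ℤ) : ℝ) = 0 := by rw [q1]; norm_num
    unfold qq at this
    push_cast at this
    exact this
  -- first relation
  have A : ε ^ h * (∑ i, (c i : ℝ) * ε ^ p i) + ε⁻¹ ^ (s - h) * (∑ i, (e i : ℝ) * ε ^ p i) = 0 := by
    have e1 : ∑ i, (c i : ℝ) * U t (h + 1 + p i) - ε⁻¹ * ∑ i, (c i : ℝ) * U t (h + p i)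
        = ε ^ h * (∑ i, (c i : ℝ) * ε ^ p i) := by
      rw [mul_sum, mul_sum, ← sum_sub_distrib]
      refine sum_congr rfl fun i _ => ?_
      have := U_diff' hb (h + p i)
      rw [show h + 1 + p i = h + p i + 1 by ring]
      rw [pow_add] at this
      linear_combination (c i : ℝ) * this
    have e2 : ∑ i, (e i : ℝ) * U t (s - (h + 1) - p i) - ε⁻¹ * ∑ i, (e i : ℝ) * U t (s - h - p i)
        = - (ε⁻¹ ^ (s - h) * (∑ i, (e i : ℝ) * ε ^ p i)) := by
      rw [mul_sum, mul_sum, ← sum_sub_distrib, ← sum_neg_distrib]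
      refine sum_congr rfl fun i _ => ?_
      have hpi := hp i
      have h1 := hb.U_diff (s - (h + 1) - p i)
      rw [show s - (h + 1) - p i + 1 = s - h - p i by omega] at h1
      have h2 : ε⁻¹ ^ (s - h) * ε ^ p i = ε⁻¹ * ε⁻¹ ^ (s - (h + 1) - p i) := by
        rw [show s - h = (s - (h + 1) - p i) + 1 + p i by omega, pow_add _ _ (p i), pow_succ,
          mul_assoc, ← mul_pow, inv_mul_cancel₀ hb.ne, one_pow]
        ring
      linear_combination (-(e i : ℝ) * ε⁻¹) * h1 + (e i : ℝ) * h2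
        + ((e i : ℝ) * (U t (s - (h + 1) - p i) : ℝ)) * (-hm)
    linear_combination r1 - ε⁻¹ * r0 - e1 + e2
  have A2 : ε⁻¹ ^ h * (∑ i, (c i : ℝ) * ε⁻¹ ^ p i) + ε ^ (s - h) * (∑ i, (e i : ℝ) * ε⁻¹ ^ p i) = 0 := by
    have e1 : ∑ i, (c i : ℝ) * U t (h + 1 + p i) - ε * ∑ i, (c i : ℝ) * U t (h + p i)
        = ε⁻¹ ^ h * (∑ i, (c i : ℝ) * ε⁻¹ ^ p i) := by
      rw [mul_sum, mul_sum, ← sum_sub_distrib]
      refine sum_congr rfl fun i _ => ?_
      have := hb.U_diff (h + p i)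
      rw [show h + 1 + p i = h + p i + 1 by ring]
      rw [pow_add] at this
      linear_combination (c i : ℝ) * this
    have e2 : ∑ i, (e i : ℝ) * U t (s - (h + 1) - p i) - ε * ∑ i, (e i : ℝ) * U t (s - h - p i)
        = - (ε ^ (s - h) * (∑ i, (e i : ℝ) * ε⁻¹ ^ p i)) := by
      rw [mul_sum, mul_sum, ← sum_sub_distrib, ← sum_neg_distrib]
      refine sum_congr rfl fun i _ => ?_
      have hpi := hp i
      have h1 := U_diff' hb (s - (h + 1) - p i)
      rw [show s - (h + 1) - p i + 1 = s - h - p i by omega] at h1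
      have h2 : ε ^ (s - h) * ε⁻¹ ^ p i = ε * ε ^ (s - (h + 1) - p i) := by
        rw [show s - h = (s - (h + 1) - p i) + 1 + p i by omega, pow_add _ _ (p i), pow_succ,
          mul_assoc, ← mul_pow, hm, one_pow]
        ring
      linear_combination (-(e i : ℝ) * ε) * h1 + (e i : ℝ) * h2
        + ((e i : ℝ) * (U t (s - (h + 1) - p i) : ℝ)) * (-hm)
    linear_combination r1 - ε * r0 - e1 + e2
  have hC : ∑ i, (c i : ℝ) * ε ^ p i ≠ 0 := by
    intro h0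
    rw [h0, mul_zero, zero_add] at A
    rcases mul_eq_zero.1 A with h1 | h1
    · exact (pow_pos hρ _).ne' h1
    · rcases hne with h2 | h2
      · exact h2 h0
      · exact h2 h1
  have hN := norm_ge hb c p hC
  set M : ℝ := ((∑ i, ((c i).natAbs + (e i).natAbs) : ℕ) : ℝ) with hM
  have hM0 : 0 ≤ M := Nat.cast_nonneg _
  have bE : |∑ i, (e i : ℝ) * ε ^ p i| ≤ M * ε ^ g := by
    have h1 := comb_bound c e (fun _ => 0) (fun i => ε ^ p i) (ε ^ g)
      (fun i => by rw [abs_zero]; positivity)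
      (fun i => by rw [abs_of_pos (pow_pos hε _)]; exact pow_le_pow_right₀ hb.h1.le (hp i))
    rw [← hM] at h1
    simpa only [mul_zero, sum_const_zero, zero_sub, abs_neg] using h1
  have bC : |∑ i, (c i : ℝ) * ε⁻¹ ^ p i| ≤ M := by
    have h1 := comb_bound c e (fun i => ε⁻¹ ^ p i) (fun _ => 0) 1
      (fun i => by rw [abs_of_pos (pow_pos hρ _)]; exact pow_le_one₀ hρ.le hb.rlt.le)
      (fun i => by rw [abs_zero]; positivity)
    rw [← hM] at h1
    simpa only [mul_zero, sum_const_zero, sub_zero, mul_one] using h1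
  have A3 : ε ^ s * |∑ i, (c i : ℝ) * ε ^ p i| = |∑ i, (e i : ℝ) * ε ^ p i| := by
    have h1 : ε ^ s * (∑ i, (c i : ℝ) * ε ^ p i) = - ∑ i, (e i : ℝ) * ε ^ p i := by
      have h2 : ε ^ (s - h) * ε⁻¹ ^ (s - h) = 1 := by rw [← mul_pow, hm, one_pow]
      have h3 : ε ^ s = ε ^ (s - h) * ε ^ h := by rw [← pow_add]; congr 1; omega
      rw [h3]
      linear_combination ε ^ (s - h) * A - (∑ i, (e i : ℝ) * ε ^ p i) * h2
    have h2 := congrArg abs h1
    rw [abs_mul, abs_neg, abs_of_pos (pow_pos hε _)] at h2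
    exact h2
  have hfin : ε ^ s ≤ M ^ 2 * ε ^ g := by
    calc ε ^ s = ε ^ s * 1 := (mul_one _).symm
      _ ≤ ε ^ s * (|∑ i, (c i : ℝ) * ε ^ p i| * |∑ i, (c i : ℝ) * ε⁻¹ ^ p i|) :=
          mul_le_mul_of_nonneg_left hN (pow_pos hε _).le
      _ = |∑ i, (e i : ℝ) * ε ^ p i| * |∑ i, (c i : ℝ) * ε⁻¹ ^ p i| := by
          rw [← mul_assoc, A3]
      _ ≤ (M * ε ^ g) * M := by gcongr
      _ = _ := by ring
  linarith

end Pool.Agent.Helper553.DR
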